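import Pool.Agent.helper52.T1.SpecF

/-!
# MP_07c750, project T1, row `t1:LBL`, piece LB2: `EX Bd` is almost constant in time
-/

set_option autoImplicit false

open scoped MatrixGroups ContDiff Topology UpperHalfPlane ComplexConjugate
open UpperHalfPlane MeasureTheory Filter Set

namespace Pool.Agent.T1

open Pool.Agent.RS Pool.Agent.MS Pool.Agent.HV

noncomputable section

/-- smooth functions with bounded values and bounded derivatives along the horocycles -/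
def LB2_S (Γ : Subgroup SL(2, ℝ)) (Ψ : SL(2, ℝ) → ℝ) : Prop :=
  ∃ (C : ℝ) (Ψa Ψn Ψl : SL(2, ℝ) → ℝ), SF Γ Ψ Ψa Ψn Ψl ∧ (∀ g, |Ψ g| ≤ C) ∧ (∀ g, |Ψn g| ≤ C) ∧ ∀ g, |Ψl g| ≤ C

theorem LB2_S.cont {Γ : Subgroup SL(2, ℝ)} {Ψ : SL(2, ℝ) → ℝ} (h : LB2_S Γ Ψ) : Continuous Ψ := by
  obtain ⟨C, Ψa, Ψn, Ψl, h1, -⟩ := h
  exact h1.i0.1

theorem LB2_S.shift (hPSF : TP.PSF_stmt) {Γ : Subgroup SL(2, ℝ)} {Ψ : SL(2, ℝ) → ℝ} (h : LB2_S Γ Ψ) (t : ℝ) :
    LB2_S Γ (fun g => Ψ (g * aM t)) := by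
  obtain ⟨C, Ψa, Ψn, Ψl, h1, h2, h3, h4⟩ := h
  have hC : 0 ≤ C := (abs_nonneg _).trans (h2 1)
  refine ⟨C * (1 + Real.exp (-t) + Real.exp t), _, _, _, (hPSF Γ Ψ Ψa Ψn Ψl h1).1 t, ?_, ?_, ?_⟩
  · intro g
    have := h2 (g * aM t)
    have e1 := Real.exp_pos t
    have e2 := Real.exp_pos (-t)
    nlinarith [mul_nonneg hC e1.le, mul_nonneg hC e2.le]
  · intro g
    show |Real.exp (-t) * Ψn (g * aM t)| ≤ _
    rw [abs_mul, abs_of_pos (Real.exp_pos _)]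
    have := mul_le_mul_of_nonneg_left (h3 (g * aM t)) (Real.exp_pos (-t)).le
    nlinarith [mul_nonneg hC (Real.exp_pos t).le]
  · intro g
    show |Real.exp t * Ψl (g * aM t)| ≤ _
    rw [abs_mul, abs_of_pos (Real.exp_pos _)]
    have := mul_le_mul_of_nonneg_left (h4 (g * aM t)) (Real.exp_pos t).le
    nlinarith [mul_nonneg hC (Real.exp_pos (-t)).le]

theorem LB2_S.mul (hPSF : TP.PSF_stmt) {Γ : Subgroup SL(2, ℝ)} {Ψ Φ : SL(2, ℝ) → ℝ} (h : LB2_S Γ Ψ) (h' : LB2_S Γ Φ) :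
    LB2_S Γ (fun g => Ψ g * Φ g) := by
  obtain ⟨C, Ψa, Ψn, Ψl, h1, h2, h3, h4⟩ := h
  obtain ⟨D, Φa, Φn, Φl, k1, k2, k3, k4⟩ := h'
  have hC : 0 ≤ C := (abs_nonneg _).trans (h2 1)
  have hD : 0 ≤ D := (abs_nonneg _).trans (k2 1)
  have key : ∀ x y : ℝ, |x| ≤ C → |y| ≤ D → |x * y| ≤ C * D := by
    intro x y hx hy
    rw [abs_mul]
    exact mul_le_mul hx hy (abs_nonneg _) hC
  refine ⟨2 * (C * D), _, _, _, (hPSF Γ Ψ Ψa Ψn Ψl h1).2.1 Φ Φa Φn Φl k1, ?_, ?_, ?_⟩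
  · intro g
    have := key _ _ (h2 g) (k2 g)
    nlinarith [mul_nonneg hC hD]
  · intro g
    have e1 := key _ _ (h3 g) (k2 g)
    have e2 := key _ _ (h2 g) (k3 g)
    exact (abs_add_le _ _).trans (by linarith)
  · intro g
    have e1 := key _ _ (h4 g) (k2 g)
    have e2 := key _ _ (h2 g) (k4 g)
    exact (abs_add_le _ _).trans (by linarith)

theorem LB2_S.add {Γ : Subgroup SL(2, ℝ)} {Ψ Φ : SL(2, ℝ) → ℝ} (h : LB2_S Γ Ψ) (h' : LB2_S Γ Φ) :
    LB2_S Γ (fun g => Ψ g + Φ g) := by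
  obtain ⟨C, Ψa, Ψn, Ψl, h1, h2, h3, h4⟩ := h
  obtain ⟨D, Φa, Φn, Φl, k1, k2, k3, k4⟩ := h'
  refine ⟨C + D, fun g => Ψa g + Φa g, fun g => Ψn g + Φn g, fun g => Ψl g + Φl g, ?_, ?_, ?_, ?_⟩
  · refine ⟨?_, ?_, ?_, ?_, fun g => (h1.da g).add (k1.da g), fun g => (h1.dn g).add (k1.dn g), fun g => (h1.dl g).add (k1.dl g)⟩
    · exact ⟨h1.i0.1.add k1.i0.1, fun γ g => by simp only [h1.i0.2, k1.i0.2]⟩
    · exact ⟨h1.ia.1.add k1.ia.1, fun γ g => by simp only [h1.ia.2, k1.ia.2]⟩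
    · exact ⟨h1.i1.1.add k1.i1.1, fun γ g => by simp only [h1.i1.2, k1.i1.2]⟩
    · exact ⟨h1.il.1.add k1.il.1, fun γ g => by simp only [h1.il.2, k1.il.2]⟩
  · exact fun g => (abs_add_le _ _).trans (add_le_add (h2 g) (k2 g))
  · exact fun g => (abs_add_le _ _).trans (add_le_add (h3 g) (k3 g))
  · exact fun g => (abs_add_le _ _).trans (add_le_add (h4 g) (k4 g))

theorem LB2_S.cmul {Γ : Subgroup SL(2, ℝ)} {Ψ : SL(2, ℝ) → ℝ} (c : ℝ) (h : LB2_S Γ Ψ) :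
    LB2_S Γ (fun g => c * Ψ g) := by
  obtain ⟨C, Ψa, Ψn, Ψl, h1, h2, h3, h4⟩ := h
  refine ⟨|c| * C, fun g => c * Ψa g, fun g => c * Ψn g, fun g => c * Ψl g, ?_, ?_, ?_, ?_⟩
  · refine ⟨?_, ?_, ?_, ?_, fun g => (h1.da g).const_mul c, fun g => (h1.dn g).const_mul c, fun g => (h1.dl g).const_mul c⟩
    · exact ⟨h1.i0.1.const_mul c, fun γ g => by simp only [h1.i0.2]⟩
    · exact ⟨h1.ia.1.const_mul c, fun γ g => by simp only [h1.ia.2]⟩
    · exact ⟨h1.i1.1.const_mul c, fun γ g => by simp only [h1.i1.2]⟩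
    · exact ⟨h1.il.1.const_mul c, fun γ g => by simp only [h1.il.2]⟩
  · exact fun g => by rw [abs_mul]; exact mul_le_mul_of_nonneg_left (h2 g) (abs_nonneg _)
  · exact fun g => by rw [abs_mul]; exact mul_le_mul_of_nonneg_left (h3 g) (abs_nonneg _)
  · exact fun g => by rw [abs_mul]; exact mul_le_mul_of_nonneg_left (h4 g) (abs_nonneg _)

theorem LB2_S.sum {Γ : Subgroup SL(2, ℝ)} {f : ℕ → SL(2, ℝ) → ℝ} (m : ℕ) (h : ∀ i, LB2_S Γ (f i)) :
    LB2_S Γ (fun g => ∑ i ∈ Finset.range m, f i g) := by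
  induction m with
  | zero =>
      have h0 := (h 0).cmul 0
      have e : (fun g => ∑ i ∈ Finset.range 0, f i g) = fun g => 0 * f 0 g := by
        funext g
        simp
      rw [e]
      exact h0
  | succ m ih =>
      have e : (fun g => ∑ i ∈ Finset.range (m + 1), f i g) = fun g => (∑ i ∈ Finset.range m, f i g) + f m g := by
        funext g
        rw [Finset.sum_range_succ]
      rw [e]
      exact ih.add (h m)

/-- almost stationarity -/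
theorem LB2_inw (hSTB : MS.STB_stmt) (hINW : MS.INW_stmt) {β α : ℝ → ℝ} (hβ : BB (1 / 4) β) (hα : BA (1 / 8) α)
    {Γ : Subgroup SL(2, ℝ)} {F : Set ℍ} (hΓ : QU.SurfaceGroup Γ) (hF : QU.NiceDom Γ F) {Ψ : SL(2, ℝ) → ℝ} (hΨ : LB2_S Γ Ψ) (η : ℝ) (hη : 0 < η) :
    ∃ R0 : ℝ, 1 ≤ R0 ∧ ∀ (r : ℝ) (φ : ℍ → ℂ), R0 ≤ r → EigL Γ (1 / 4 + r ^ 2) φ → nn F φ = 1 → ∀ t t' : ℝ,
      Real.sqrt (Real.log r) ≤ t → t ≤ Real.log r - Real.sqrt (Real.log r) → Real.sqrt (Real.log r) ≤ t' → t' ≤ Real.log r - Real.sqrt (Real.log r) →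
        |EX F β α r φ (fun g => Ψ (g * aM t)) - EX F β α r φ (fun g => Ψ (g * aM t'))| ≤ η := by
  have hα4 : BA (1 / 4) α := (hSTB.2.2.2.2.1 (1 / 8) (1 / 4) α (by norm_num)).2.1 hα
  obtain ⟨K, r1, hK, hr1, hI⟩ := hINW Γ F β α hΓ hF hβ hα4
  have hK0 : 0 < K := by linarith
  obtain ⟨C, Ψa, Ψn, Ψl, h1, h2, h3, h4⟩ := hΨ
  have hC : 0 ≤ C := (abs_nonneg _).trans (h2 1)
  set D : ℝ := C + 1 with hD
  have hD0 : 0 < D := by linarith
  -- the normalised function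
  have hS : LB2_S Γ Ψ := ⟨C, Ψa, Ψn, Ψl, h1, h2, h3, h4⟩
  have hN : SF Γ (fun g => D⁻¹ * Ψ g) (fun g => D⁻¹ * Ψa g) (fun g => D⁻¹ * Ψn g) (fun g => D⁻¹ * Ψl g) := by
    refine ⟨?_, ?_, ?_, ?_, fun g => (h1.da g).const_mul _, fun g => (h1.dn g).const_mul _, fun g => (h1.dl g).const_mul _⟩
    · exact ⟨h1.i0.1.const_mul _, fun γ g => by simp only [h1.i0.2]⟩
    · exact ⟨h1.ia.1.const_mul _, fun γ g => by simp only [h1.ia.2]⟩
    · exact ⟨h1.i1.1.const_mul _, fun γ g => by simp only [h1.i1.2]⟩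
    · exact ⟨h1.il.1.const_mul _, fun γ g => by simp only [h1.il.2]⟩
  have hb : ∀ x : ℝ, |x| ≤ C → |D⁻¹ * x| ≤ 1 := by
    intro x hx
    rw [abs_mul, abs_of_pos (inv_pos.mpr hD0), inv_mul_le_iff₀ hD0]
    linarith
  -- the error tends to zero
  have hlim : Tendsto (fun r : ℝ => K * (Real.exp (-Real.sqrt (Real.log r)) + (Real.log r / r + Real.exp (-Real.sqrt (Real.log r))))) atTop (𝓝 0) := by
    have e1 : Tendsto (fun r : ℝ => Real.exp (-Real.sqrt (Real.log r))) atTop (𝓝 0) := by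
      refine Real.tendsto_exp_atBot.comp ?_
      refine tendsto_neg_atTop_atBot.comp ?_
      exact Real.tendsto_sqrt_atTop.comp Real.tendsto_log_atTop
    have e2 : Tendsto (fun r : ℝ => Real.log r / r) atTop (𝓝 0) := by
      have := Real.isLittleO_log_id_atTop.tendsto_div_nhds_zero
      exact this
    have e3 := (e1.add (e2.add e1)).const_mul K
    simpa using e3
  have hev : ∀ᶠ r : ℝ in atTop, K * (Real.exp (-Real.sqrt (Real.log r)) + (Real.log r / r + Real.exp (-Real.sqrt (Real.log r)))) < η / D :=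
    hlim.eventually (gt_mem_nhds (by positivity))
  obtain ⟨R, hR⟩ := Filter.eventually_atTop.mp hev
  refine ⟨max r1 R, hr1.trans (le_max_left _ _), ?_⟩
  intro r φ hr hφ hnn
  have hrr1 : r1 ≤ r := (le_max_left _ _).trans hr
  have hr0 : 0 < r := by linarith
  have hRr := hR r ((le_max_right _ _).trans hr)
  have main : ∀ t t' : ℝ, Real.sqrt (Real.log r) ≤ t → t ≤ t' → t' ≤ Real.log r - Real.sqrt (Real.log r) →
      |EX F β α r φ (fun g => Ψ (g * aM t')) - EX F β α r φ (fun g => Ψ (g * aM t))| ≤ η := by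
    intro t t' ht htt' ht'
    have ht0 : 0 ≤ t := (Real.sqrt_nonneg _).trans ht
    have k := hI r φ hrr1 hφ _ _ _ _ 1 1 hN (fun g => hb _ (h2 g)) (fun g => hb _ (h3 g)) (fun g => hb _ (h4 g)) t t' ht0 htt'
    rw [hnn, mul_one, one_mul, one_mul] at k
    have e1 : Real.exp (-t) ≤ Real.exp (-Real.sqrt (Real.log r)) := Real.exp_le_exp.mpr (neg_le_neg ht)
    have e2 : Real.exp t' / r ≤ Real.exp (-Real.sqrt (Real.log r)) := by
      rw [div_le_iff₀ hr0]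
      calc Real.exp t' ≤ Real.exp (Real.log r - Real.sqrt (Real.log r)) := Real.exp_le_exp.mpr ht'
        _ = Real.exp (-Real.sqrt (Real.log r)) * r := by
            rw [sub_eq_add_neg, Real.exp_add, Real.exp_log hr0, mul_comm]
    have e3 : t' / r ≤ Real.log r / r := by
      refine div_le_div_of_nonneg_right ?_ hr0.le
      linarith [Real.sqrt_nonneg (Real.log r)]
    have e4 : K * (Real.exp (-t) + (t' + Real.exp t') / r) ≤ η / D := by
      refine le_trans (mul_le_mul_of_nonneg_left ?_ hK0.le) hRr.le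
      rw [add_div]
      linarith
    have e5 : ∀ s : ℝ, r * iR F (fun g => D⁻¹ * Ψ (g * aM s) * ‖pf β α r φ g‖ ^ 2) = D⁻¹ * EX F β α r φ (fun g => Ψ (g * aM s)) := by
      intro s
      unfold EX iR
      have : (fun g : SL(2, ℝ) => D⁻¹ * Ψ (g * aM s) * ‖pf β α r φ g‖ ^ 2) = fun g => D⁻¹ * (Ψ (g * aM s) * ‖pf β α r φ g‖ ^ 2) := by
        funext g
        ring
      rw [this, integral_const_mul]
      ring
    have e6 := k.trans e4
    rw [e5, e5, ← mul_sub, abs_mul, abs_of_pos (inv_pos.mpr hD0), inv_mul_le_iff₀ hD0] at e6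
    refine e6.trans (le_of_eq ?_)
    field_simp
  intro t t' ht1 ht2 ht1' ht2'
  rcases le_total t t' with h | h
  · rw [abs_sub_comm]
    exact main t t' ht1 h ht2'
  · exact main t' t ht1' h ht2

/-- `bad` as a polynomial -/
theorem LB2_bad (κ : SL(2, ℝ) → ℝ) (u : ℝ) (g : SL(2, ℝ)) : bad κ u g = (κ g + κ (g * aM u)) + -2 * (κ g * κ (g * aM u)) := by
  unfold bad
  ring

/-- the integral part of `Bd` -/
theorem LB2_int (hGLC : RS.GLC_stmt) (κ : SL(2, ℝ) → ℝ) (hκ : Continuous κ) (n : ℝ) (hn : 0 < n) (g : SL(2, ℝ)) :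
    (∫ u in (0 : ℝ)..n, bad κ u g) / n = (κ g + TP.av κ n g) + -2 * (κ g * TP.av κ n g) := by
  have hc : Continuous fun u : ℝ => κ (g * aM u) := by
    refine hκ.comp (continuous_const.mul ?_)
    exact hGLC.2.2.2.1
  have h1 : ∀ u : ℝ, bad κ u g = κ g + (1 - 2 * κ g) * κ (g * aM u) := by
    intro u
    unfold bad
    ring
  simp only [h1]
  rw [intervalIntegral.integral_add (intervalIntegrable_const) ((hc.const_mul _).intervalIntegrable _ _), intervalIntegral.integral_const, intervalIntegral.integral_const_mul]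
  unfold TP.av
  rw [smul_eq_mul]
  field_simp
  ring

theorem LB2_Bd (hGLC : RS.GLC_stmt) (hPSF : TP.PSF_stmt) (hPAV : TP.PAV_stmt) {Γ : Subgroup SL(2, ℝ)} {κ κa κn κl : SL(2, ℝ) → ℝ} {C : ℝ} {N0 : ℕ}
    (hSF : SF Γ κ κa κn κl) (hκ : ∀ g, 0 ≤ κ g ∧ κ g ≤ 1) (hn : ∀ g, |κn g| ≤ C) (hl : ∀ g, |κl g| ≤ C * N0) (hN : 2 ≤ N0) (y0 : ℕ) :
    LB2_S Γ (Bd κ N0 y0) := by
  have hN' : (2 : ℝ) ≤ N0 := by exact_mod_cast hN
  have hlog : 0 < Real.log N0 := Real.log_pos (by linarith)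
  have hC : 0 ≤ C := (abs_nonneg _).trans (hn 1)
  have hκS : LB2_S Γ κ := by
    refine ⟨max 1 (C * N0), κa, κn, κl, hSF, ?_, ?_, ?_⟩
    · intro g
      rw [abs_of_nonneg (hκ g).1]
      exact (hκ g).2.trans (le_max_left _ _)
    · intro g
      refine (hn g).trans (le_trans ?_ (le_max_right _ _))
      nlinarith
    · exact fun g => (hl g).trans (le_max_right _ _)
  have hb : ∀ u : ℝ, LB2_S Γ (bad κ u) := by
    intro u
    have e : bad κ u = fun g => (κ g + κ (g * aM u)) + -2 * (κ g * κ (g * aM u)) := by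
      funext g
      exact LB2_bad κ u g
    rw [e]
    exact (hκS.add (hκS.shift hPSF u)).add ((hκS.mul hPSF (hκS.shift hPSF u)).cmul (-2))
  have hav : LB2_S Γ (TP.av κ (Real.log N0)) := by
    obtain ⟨h1, -, Aa, An, Al, h2, -, h4, h5⟩ := hPAV Γ κ κa κn κl (Real.log N0) C (C * N0) hSF hκ hn hl hlog
    refine ⟨1 + C / Real.log N0 + |C * N0 * Real.exp (Real.log N0) / Real.log N0|, Aa, An, Al, h2, ?_, ?_, ?_⟩
    · intro g
      rw [abs_of_nonneg (h1 g).1]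
      have := (h1 g).2
      have := abs_nonneg (C * N0 * Real.exp (Real.log N0) / Real.log N0)
      have : 0 ≤ C / Real.log N0 := by positivity
      linarith
    · intro g
      have := h4 g
      have := abs_nonneg (C * N0 * Real.exp (Real.log N0) / Real.log N0)
      linarith
    · intro g
      have := h5 g
      have := le_abs_self (C * N0 * Real.exp (Real.log N0) / Real.log N0)
      have : 0 ≤ C / Real.log N0 := by positivity
      linarith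
  have e : Bd κ N0 y0 = fun g => (∑ i ∈ Finset.range (y0 + 1), bad κ ((i : ℕ) * Real.log N0) g) + ((κ g + TP.av κ (Real.log N0) g) + -2 * (κ g * TP.av κ (Real.log N0) g)) := by
    funext g
    unfold Bd
    rw [LB2_int hGLC κ hSF.i0.1 _ hlog g]
  rw [e]
  exact (LB2_S.sum (f := fun i => bad κ ((i : ℕ) * Real.log N0)) (y0 + 1) fun i => hb _).add ((hκS.add hav).add ((hκS.mul hPSF hav).cmul (-2)))

/-- **LB2**: the expectation of `Bd` at all times. -/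
theorem LB2_proof (hGLC : RS.GLC_stmt) (hSTB : MS.STB_stmt) (hINW : MS.INW_stmt) (hPSF : TP.PSF_stmt) (hPAV : TP.PAV_stmt)
    {β α : ℝ → ℝ} (hβ : BB (1 / 4) β) (hα : BA (1 / 8) α) {Γ : Subgroup SL(2, ℝ)} {F : Set ℍ} (hΓ : QU.SurfaceGroup Γ) (hF : QU.NiceDom Γ F)
    (N0 y0 : ℕ) (C w0 δ1 : ℝ) (κ κa κn κl : SL(2, ℝ) → ℝ) (hN : 2 ≤ N0) (hw0 : 0 < w0) (hδ1 : 0 < δ1)
    (hSF : SF Γ κ κa κn κl) (hκ : ∀ g, 0 ≤ κ g ∧ κ g ≤ 1) (hn : ∀ g, |κn g| ≤ C) (hl : ∀ g, |κl g| ≤ C * N0) :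
    ∃ R0 : ℝ, 1 ≤ R0 ∧ ∀ (r t1 : ℝ) (φ : ℍ → ℂ), R0 ≤ r → EigL Γ (1 / 4 + r ^ 2) φ → nn F φ = 1 →
      Real.sqrt (Real.log r) ≤ t1 → t1 ≤ Real.log r - Real.sqrt (Real.log r) → EX F β α r φ (fun g => Bd κ N0 y0 (g * aM t1)) ≤ δ1 →
        ∀ s : ℝ, w0 * Real.log r ≤ s → s ≤ (1 - w0) * Real.log r → EX F β α r φ (fun g => Bd κ N0 y0 (g * aM s)) ≤ 2 * δ1 := by
  obtain ⟨R1, hR1, h1⟩ := LB2_inw hSTB hINW hβ hα hΓ hF (LB2_Bd hGLC hPSF hPAV hSF hκ hn hl hN y0) δ1 hδ1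
  refine ⟨max R1 (Real.exp (1 / w0 ^ 2)), hR1.trans (le_max_left _ _), ?_⟩
  intro r t1 φ hr hφ hnn ht1 ht1' hB s hs hs'
  have hrR : R1 ≤ r := (le_max_left _ _).trans hr
  have hrpos : 0 < r := by linarith
  have hL : 1 / w0 ^ 2 ≤ Real.log r := by
    rw [Real.le_log_iff_exp_le hrpos]
    exact (le_max_right _ _).trans hr
  have hL0 : 0 < Real.log r := lt_of_lt_of_le (by positivity) hL
  have hsq : Real.sqrt (Real.log r) ≤ w0 * Real.log r := by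
    rw [Real.sqrt_le_left (by positivity)]
    have h5 : 1 ≤ w0 ^ 2 * Real.log r := by
      rw [div_le_iff₀ (by positivity)] at hL
      linarith
    have h6 : (w0 * Real.log r) ^ 2 = (w0 ^ 2 * Real.log r) * Real.log r := by ring
    rw [h6]
    exact le_mul_of_one_le_left hL0.le h5
  have h2 := h1 r φ hrR hφ hnn s t1 (hsq.trans hs) (by nlinarith) ht1 ht1'
  have h3 := le_abs_self (EX F β α r φ (fun g => Bd κ N0 y0 (g * aM s)) - EX F β α r φ (fun g => Bd κ N0 y0 (g * aM t1)))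
  linarith

end

end Pool.Agent.T1
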